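import Pool.Agent.H2.Dij.LowD

set_option autoImplicit false

namespace Pool.Agent.Results.MP_61c7a3_co.DijoinLowerBound

/-- A finite oriented graph: `arc x y` means that there is an arc from `x` to `y`; no loops and
no directed 2-cycles. -/
structure OGraph where
  /-- the vertices -/
  V : Type
  /-- there are finitely many -/
  fin : Finite V
  /-- the arcs -/
  arc : V → V → Prop
  /-- no loops, no directed 2-cycles -/
  asymm : ∀ x y, arc x y → ¬ arc y x

/-- The arcs after inverting the sets `X 0, ..., X (k-1)`: the arc between `a` and `b` is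
reversed if the number of the sets which contain both ends is odd. -/
def Inverted (D : OGraph) {k : ℕ} (X : Fin k → Set D.V) (a b : D.V) : Prop :=
  (D.arc a b ∧ Even (Nat.card {i : Fin k // a ∈ X i ∧ b ∈ X i})) ∨
    (D.arc b a ∧ Odd (Nat.card {i : Fin k // a ∈ X i ∧ b ∈ X i}))

/-- No directed closed walk. -/
def Acyclic {V : Type} (R : V → V → Prop) : Prop := ∀ v, ¬ Relation.TransGen R v v

/-- The inversion number: the least number of inversions which make the graph acyclic. -/
noncomputable def inv (D : OGraph) : ℕ :=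
  sInf {k | ∃ X : Fin k → Set D.V, Acyclic (Inverted D X)}

/-- The arcs of the dijoin. -/
def dijoinArc {V W : Type} (r₁ : V → V → Prop) (r₂ : W → W → Prop) : V ⊕ W → V ⊕ W → Prop
  | Sum.inl a, Sum.inl b => r₁ a b
  | Sum.inr a, Sum.inr b => r₂ a b
  | Sum.inl _, Sum.inr _ => True
  | Sum.inr _, Sum.inl _ => False

/-- The dijoin: all arcs from the first graph to the second. -/
def dijoin (D E : OGraph) : OGraph where
  V := D.V ⊕ E.V
  fin := by
    have := D.fin
    have := E.fin
    infer_instance
  arc := dijoinArc D.arc E.arc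
  asymm := by
    rintro (a | a) (b | b) h h'
    · exact D.asymm a b h h'
    · exact h'
    · exact h
    · exact E.asymm a b h h'

/-- The directed triangle. -/
def triangle : OGraph where
  V := Fin 3
  fin := inferInstance
  arc := fun a b => b = a + 1
  asymm := by decide

open H2.Dij2 in
/-- The `k`-join `[D₀, ..., D_(k-1)]`: vertex-disjoint copies, the arcs of every `D i`, and all
arcs from `D i` to `D j` for `i < j`. -/
def kjoin {k : ℕ} (D : Fin k → OGraph) : OGraph where
  V := Σ i, (D i).V
  fin := by
    have := fun i => (D i).fin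
    infer_instance
  arc := fun p q => p.1 < q.1 ∨
    ∃ (i : Fin k) (a b : (D i).V), (D i).arc a b ∧ p = ⟨i, a⟩ ∧ q = ⟨i, b⟩
  asymm := by
    rintro ⟨i, a⟩ ⟨j, b⟩ h h'
    by_cases hij : i = j
    · subst hij
      exact (D i).asymm a b ((kj_inner (fun i => (D i).arc) i a b).1 h)
        ((kj_inner (fun i => (D i).arc) i b a).1 h')
    · exact absurd ((kj_cross (fun i => (D i).arc) i j hij a b).1 h)
        ((kj_cross (fun i => (D i).arc) j i (Ne.symm hij) b a).1 h').not_gt

open H2.Dij2 in
lemma inv_spec (D : OGraph) : VLe D.arc (inv D) := by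
  have := D.fin
  obtain ⟨k, hk⟩ := exists_vle D.arc D.asymm
  exact (ile_iff D.arc _).1
    (Nat.sInf_mem (s := {k | ∃ X : Fin k → Set D.V, Acyclic (Inverted D X)})
      ⟨k, (ile_iff D.arc k).2 hk⟩)

open H2.Dij2 in
lemma inv_le {D : OGraph} {k : ℕ} (h : VLe D.arc k) : inv D ≤ k :=
  Nat.sInf_le ((ile_iff D.arc k).2 h)

open H2.Dij2 in
lemma lt_inv {D : OGraph} {k : ℕ} (h : k < inv D) : ¬ VLe D.arc k :=
  fun g => absurd (inv_le g) (by omega)

open H2.Dij2 in
lemma inv0 (D : OGraph) : Inv0 D.arc (inv D) := ⟨inv_spec D, fun _ hj => lt_inv hj⟩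

/-- Tournaments: between any two different vertices there is an arc. -/
def Tournament (T : OGraph) : Prop := ∀ x y : T.V, x ≠ y → T.arc x y ∨ T.arc y x

/-- Every tournament with `n` vertices has inversion number at most `c`. -/
def AllTournaments (n c : ℕ) : Prop :=
  ∀ T : OGraph, Tournament T → Nat.card T.V = n → inv T ≤ c

open H2.Dij2 in
lemma bd_of {n c : ℕ} (h : AllTournaments n c) : Bd n c := by
  intro V T hV hT hn
  let G : OGraph := ⟨V, hV, T, fun x y hxy => by
    by_cases e : x = y
    · subst e; exact (hT.1 _ hxy).elim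
    · exact (hT.2 x y e).1 hxy⟩
  have h1 : inv G ≤ c := h G (fun x y hxy => by
    by_cases e : T x y
    · exact Or.inl e
    · exact Or.inr ((hT.2 y x hxy.symm).2 e)) hn
  exact (inv_spec G).mono h1

open H2.Dij2 in
lemma val_tri (E : OGraph) (n : ℕ) (h : inv (dijoin E triangle) = n + 1) : Val E.arc n := by
  obtain ⟨σ, hσ⟩ := val_of_vle (inv_spec E)
  have hc3 : Val c3 1 := by
    refine ⟨fun j hj g => ?_, Or.inl c3_one⟩
    obtain rfl : j = 0 := by omega
    exact c3_zero (rle_zero g)
  obtain ⟨g1, g2⟩ := val_dj hσ hc3 (by norm_num)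
  have h1 : VLe (dj E.arc c3) (σ + 1) := by
    by_contra hc
    rcases g2.1 hc with ⟨-, i⟩ | ⟨-, i⟩ | ⟨-, i⟩
    · exact i c3_one
    · omega
    · exact i c3_one
  have h2 : inv (dijoin E triangle) ≤ σ + 1 := inv_le h1
  have h3 : σ + 1 ≤ inv (dijoin E triangle) := g1.lt (Or.inl (inv_spec (dijoin E triangle)))
  obtain rfl : n = σ := by omega
  exact hσ

open H2.Dij2 in
/-- **Lower bounds for dijoins and joins** of finite oriented graphs.
(1) Let `n + 1` be the inversion number of the dijoin of `E` and the directed triangle, `n ≥ 3`,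
and let every tournament with `n` vertices have inversion number at most `c`. Then the inversion
numbers of both dijoins of `D` and `E` are at least that of `D` plus `n - c`.
(2) If all graphs of a sequence except perhaps `D m` have inversion number at least 3, the
inversion number of the join is at least that of `D m` plus the sum of `1 + log₂ (inv (D i))`,
rounded down, over all `i ≠ m`. -/
theorem result :
    (∀ (D E : OGraph) (n c : ℕ), 3 ≤ n → inv (dijoin E triangle) = n + 1 →
      AllTournaments n c →
      inv D + n ≤ inv (dijoin D E) + c ∧ inv D + n ≤ inv (dijoin E D) + c) ∧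
    (∀ (k : ℕ) (D : Fin k → OGraph) (m : Fin k), (∀ i, i ≠ m → 3 ≤ inv (D i)) →
      inv (D m) + ∑ i ∈ Finset.univ.erase m, (Nat.log 2 (inv (D i)) + 1) ≤ inv (kjoin D)) := by
  refine ⟨?_, ?_⟩
  · intro D E n c hn h1 h2
    exact ⟨core1 (inv0 D) (val_tri E n h1) hn (bd_of h2) (inv_spec (dijoin D E)),
      core1' (inv0 D) (val_tri E n h1) hn (bd_of h2) (inv_spec (dijoin E D))⟩
  · intro k D m h
    have h1 := low_kj k (fun i => (D i).V) (fun i => (D i).arc) (fun i => inv (D i)) m h
      (fun i => inv0 (D i)) _ (inv_spec (kjoin D))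
    have h2 := Finset.add_sum_erase Finset.univ (fun i => Nat.log 2 (inv (D i)) + 1)
      (Finset.mem_univ m)
    omega

end Pool.Agent.Results.MP_61c7a3_co.DijoinLowerBound
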