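import Pool.Agent.H2.Dij.StepU

set_option autoImplicit false

namespace Pool.Agent.Results.MP_61c7a3_co.JoinFormula

/-- A finite oriented graph: `arc x y` means that there is an arc from `x` to `y`; no loops and
no directed 2-cycles. -/
structure OGraph where
  /-- the vertices -/
  V : Type
  /-- there are finitely many -/
  fin : Finite V
  /-- the arcs -/
  arc : V → V → Prop
  /-- no loops, no directed 2-cycles -/
  asymm : ∀ x y, arc x y → ¬ arc y x

/-- The arcs after inverting the sets `X 0, ..., X (k-1)`: the arc between `a` and `b` is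
reversed if the number of the sets which contain both ends is odd. -/
def Inverted (D : OGraph) {k : ℕ} (X : Fin k → Set D.V) (a b : D.V) : Prop :=
  (D.arc a b ∧ Even (Nat.card {i : Fin k // a ∈ X i ∧ b ∈ X i})) ∨
    (D.arc b a ∧ Odd (Nat.card {i : Fin k // a ∈ X i ∧ b ∈ X i}))

/-- No directed closed walk. -/
def Acyclic {V : Type} (R : V → V → Prop) : Prop := ∀ v, ¬ Relation.TransGen R v v

/-- The inversion number: the least number of inversions which make the graph acyclic. -/
noncomputable def inv (D : OGraph) : ℕ :=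
  sInf {k | ∃ X : Fin k → Set D.V, Acyclic (Inverted D X)}

/-- The arcs of the dijoin. -/
def dijoinArc {V W : Type} (r₁ : V → V → Prop) (r₂ : W → W → Prop) : V ⊕ W → V ⊕ W → Prop
  | Sum.inl a, Sum.inl b => r₁ a b
  | Sum.inr a, Sum.inr b => r₂ a b
  | Sum.inl _, Sum.inr _ => True
  | Sum.inr _, Sum.inl _ => False

/-- The dijoin: all arcs from the first graph to the second. -/
def dijoin (D E : OGraph) : OGraph where
  V := D.V ⊕ E.V
  fin := by
    have := D.fin
    have := E.fin
    infer_instance
  arc := dijoinArc D.arc E.arc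
  asymm := by
    rintro (a | a) (b | b) h h'
    · exact D.asymm a b h h'
    · exact h'
    · exact h
    · exact E.asymm a b h h'

/-- The directed triangle. -/
def triangle : OGraph where
  V := Fin 3
  fin := inferInstance
  arc := fun a b => b = a + 1
  asymm := by decide

open H2.Dij2 in
/-- The `k`-join `[D₀, ..., D_(k-1)]`: vertex-disjoint copies, the arcs of every `D i`, and all
arcs from `D i` to `D j` for `i < j`. -/
def kjoin {k : ℕ} (D : Fin k → OGraph) : OGraph where
  V := Σ i, (D i).V
  fin := by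
    have := fun i => (D i).fin
    infer_instance
  arc := fun p q => p.1 < q.1 ∨
    ∃ (i : Fin k) (a b : (D i).V), (D i).arc a b ∧ p = ⟨i, a⟩ ∧ q = ⟨i, b⟩
  asymm := by
    rintro ⟨i, a⟩ ⟨j, b⟩ h h'
    by_cases hij : i = j
    · subst hij
      exact (D i).asymm a b ((kj_inner (fun i => (D i).arc) i a b).1 h)
        ((kj_inner (fun i => (D i).arc) i b a).1 h')
    · exact absurd ((kj_cross (fun i => (D i).arc) i j hij a b).1 h)
        ((kj_cross (fun i => (D i).arc) j i (Ne.symm hij) b a).1 h').not_gt

/-- Exceptional: the dijoin with the directed triangle has the same inversion number. -/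
def Exceptional (D : OGraph) : Prop := inv (dijoin D triangle) = inv D

open H2.Dij2 in
lemma inv_spec (D : OGraph) : VLe D.arc (inv D) := by
  have := D.fin
  obtain ⟨k, hk⟩ := exists_vle D.arc D.asymm
  exact (ile_iff D.arc _).1
    (Nat.sInf_mem (s := {k | ∃ X : Fin k → Set D.V, Acyclic (Inverted D X)})
      ⟨k, (ile_iff D.arc k).2 hk⟩)

open H2.Dij2 in
lemma inv_le {D : OGraph} {k : ℕ} (h : VLe D.arc k) : inv D ≤ k :=
  Nat.sInf_le ((ile_iff D.arc k).2 h)

open H2.Dij2 in
lemma lt_inv {D : OGraph} {k : ℕ} (h : k < inv D) : ¬ VLe D.arc k :=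
  fun g => absurd (inv_le g) (by omega)

open H2.Dij2 in
/-- The two cases for the dijoin with the directed triangle. -/
lemma tri_iff (D : OGraph) :
    inv (dijoin D triangle) = inv D ↔ Odd (inv D) ∧ 3 ≤ inv D ∧ VEv D.arc (inv D) := by
  constructor
  · intro h
    have h1 : VLe (dj D.arc c3) (inv D) := by
      have := inv_spec (dijoin D triangle)
      rw [h] at this
      exact this
    obtain ⟨h2, h3⟩ := stepE D.arc c3 1 (inv D) (by norm_num)
      (fun j hj => by
        have : j = 0 := by omega
        subst this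
        exact c3_zero) (Or.inl h1)
    obtain ⟨s, hs⟩ : ∃ s, inv D = s + 1 := ⟨inv D - 1, by omega⟩
    have h4 : VEv D.arc (inv D) := by
      rcases h3 with g | g
      · exact (lt_inv (show inv D - 1 < inv D by omega) g).elim
      · rw [show inv D - 1 + 1 = inv D by omega] at g
        exact g
    have h5 : ¬ VLe D.arc s := lt_inv (by omega)
    rw [hs] at h4 ⊢
    exact ⟨(even_dim h4 h5).1, (even_dim h4 h5).2, h4⟩
  · rintro ⟨ho, -, he⟩
    apply le_antisymm
    · exact inv_le (D := dijoin D triangle) (vle_dj_even (l := 0) ho he c3_one)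
    · exact inv_le (VLe.hom (s := (dijoin D triangle).arc) Sum.inl (fun _ _ h => h)
        (inv_spec (dijoin D triangle)))

open H2.Dij2 in
/-- The inversion number from the least value of `RLe`. -/
lemma val_inv {D : OGraph} {σ : ℕ} (h : Val D.arc σ) :
    (Exceptional D ↔ ¬ VLe D.arc σ) ∧ (VLe D.arc σ → inv D = σ) ∧
      (¬ VLe D.arc σ → inv D = σ + 1) := by
  have h1 : σ ≤ inv D := h.lt (Or.inl (inv_spec D))
  have h2 : VLe D.arc σ → inv D = σ := fun g => le_antisymm (inv_le g) h1
  have h3 : ¬ VLe D.arc σ → inv D = σ + 1 := by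
    intro g
    have i1 : inv D ≤ σ + 1 := inv_le (h.pos g).2.2.vle
    have i2 : inv D ≠ σ := fun e => g (by rw [← e]; exact inv_spec D)
    omega
  refine ⟨⟨?_, ?_⟩, h2, h3⟩
  · intro he g
    obtain ⟨-, j2, j3⟩ := (tri_iff D).1 he
    rw [h2 g] at j2 j3
    obtain ⟨s, rfl⟩ : ∃ s, σ = s + 1 := ⟨σ - 1, by omega⟩
    exact h.1 s (by omega) (Or.inr j3)
  · intro g
    obtain ⟨p1, p2, p3⟩ := h.pos g
    refine (tri_iff D).2 ?_
    rw [h3 g]
    exact ⟨p1, by omega, p3⟩

open H2.Dij2 in
/-- The formula. -/
lemma formula (k : ℕ) (D : Fin k → OGraph) (m : Fin k) (h : ∀ i, i ≠ m → inv (D i) ≤ 3) :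
    (((∃ i, Exceptional (D i)) ∧ ∀ i, Exceptional (D i) ∨ inv (D i) = 0) →
      inv (kjoin D) + Nat.card {i // Exceptional (D i)} = ∑ i, inv (D i) + 1) ∧
    (¬ ((∃ i, Exceptional (D i)) ∧ ∀ i, Exceptional (D i) ∨ inv (D i) = 0) →
      inv (kjoin D) + Nat.card {i // Exceptional (D i)} = ∑ i, inv (D i)) := by
  classical
  have hex : ∀ i, ∃ σ, Val (D i).arc σ := fun i => by
    have := (D i).fin
    exact exists_val (D i).arc (D i).asymm
  choose σ hσ using hex
  have hinv := fun i => val_inv (hσ i)
  have hval : ∀ i, inv (D i) = σ i + if Exceptional (D i) then 1 else 0 := by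
    intro i
    split_ifs with hc
    · exact (hinv i).2.2 ((hinv i).1.1 hc)
    · exact (hinv i).2.1 (not_not.1 fun hn => hc ((hinv i).1.2 hn))
  have hsum : ∑ i, inv (D i) = ∑ i, σ i + Nat.card {i // Exceptional (D i)} := by
    rw [Nat.card_eq_fintype_card, Fintype.card_subtype, Finset.card_filter,
      ← Finset.sum_add_distrib]
    exact Finset.sum_congr rfl fun i _ => hval i
  obtain ⟨g1, g2⟩ := val_kj k (fun i => (D i).V) (fun i => (D i).arc) σ m
    (fun i hi => by have := h i hi; rw [hval i] at this; omega) hσ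
  have hcond : (¬ VLe (kjoin D).arc (∑ i, σ i)) ↔
      ((∃ i, Exceptional (D i)) ∧ ∀ i, Exceptional (D i) ∨ inv (D i) = 0) := by
    refine g2.trans (and_congr (exists_congr fun i => (hinv i).1.symm) (forall_congr' fun i => ?_))
    rw [← (hinv i).1]
    refine or_congr_right' fun hn => ?_
    rw [hval i, if_neg hn, add_zero]
  obtain ⟨-, j1, j2⟩ := val_inv (D := kjoin D) g1
  refine ⟨fun hc => ?_, fun hc => ?_⟩
  · have := j2 (hcond.2 hc)
    omega
  · have := j1 (not_not.1 fun hn => hc (hcond.1 hn))
    omega

open H2.Dij2 in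
/-- **Inversion numbers of joins.** Let `D` be a sequence of finite oriented graphs. If all have
inversion number at most 2, the inversion number of the join is the sum of their inversion
numbers. More generally, let one of them, `D m`, be arbitrary, and let all the others have
inversion number at most 3. Let `t` be the number of exceptional graphs among all of them. Then
the inversion number of the join is the sum of the inversion numbers minus `t`, plus 1 if `t` is
not 0 and every nonexceptional graph is acyclic. -/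
theorem result :
    (∀ (k : ℕ) (D : Fin k → OGraph), (∀ i, inv (D i) ≤ 2) →
      inv (kjoin D) = ∑ i, inv (D i)) ∧
    (∀ (k : ℕ) (D : Fin k → OGraph) (m : Fin k), (∀ i, i ≠ m → inv (D i) ≤ 3) →
      (((∃ i, Exceptional (D i)) ∧ ∀ i, Exceptional (D i) ∨ inv (D i) = 0) →
        inv (kjoin D) + Nat.card {i // Exceptional (D i)} = ∑ i, inv (D i) + 1) ∧
      (¬ ((∃ i, Exceptional (D i)) ∧ ∀ i, Exceptional (D i) ∨ inv (D i) = 0) →
        inv (kjoin D) + Nat.card {i // Exceptional (D i)} = ∑ i, inv (D i))) := by
  refine ⟨?_, formula⟩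
  intro k D h
  rcases k with _ | k
  · have h0 : VLe (kjoin D).arc 0 := ⟨fun _ i => i.elim0, fun v => v.1.elim0⟩
    have := inv_le h0
    rw [Fin.sum_univ_zero]
    omega
  · have hn : ∀ i, ¬ Exceptional (D i) := by
      intro i hi
      have h1 := ((tri_iff (D i)).1 hi).2.1
      have h2 := h i
      omega
    have : IsEmpty {i // Exceptional (D i)} := ⟨fun i => hn i.1 i.2⟩
    have h1 := (formula (k + 1) D 0 fun i _ => (h i).trans (by norm_num)).2
      fun hc => hn _ hc.1.choose_spec
    rw [Nat.card_of_isEmpty, add_zero] at h1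
    exact h1

end Pool.Agent.Results.MP_61c7a3_co.JoinFormula
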