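import Pool.Agent.H2.Dij.Fin2
import Pool.Agent.H2.Dij.Half

set_option autoImplicit false

namespace Pool.Agent.Results.MP_61c7a3_co.StrongSubadditivity

/-- A finite oriented graph: `arc x y` means that there is an arc from `x` to `y`; no loops and
no directed 2-cycles. -/
structure OGraph where
  /-- the vertices -/
  V : Type
  /-- there are finitely many -/
  fin : Finite V
  /-- the arcs -/
  arc : V → V → Prop
  /-- no loops, no directed 2-cycles -/
  asymm : ∀ x y, arc x y → ¬ arc y x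

/-- The arcs after inverting the sets `X 0, ..., X (k-1)`: the arc between `a` and `b` is
reversed if the number of the sets which contain both ends is odd. -/
def Inverted (D : OGraph) {k : ℕ} (X : Fin k → Set D.V) (a b : D.V) : Prop :=
  (D.arc a b ∧ Even (Nat.card {i : Fin k // a ∈ X i ∧ b ∈ X i})) ∨
    (D.arc b a ∧ Odd (Nat.card {i : Fin k // a ∈ X i ∧ b ∈ X i}))

/-- No directed closed walk. -/
def Acyclic {V : Type} (R : V → V → Prop) : Prop := ∀ v, ¬ Relation.TransGen R v v

/-- The inversion number is at most `k`. -/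
def InvLe (D : OGraph) (k : ℕ) : Prop := ∃ X : Fin k → Set D.V, Acyclic (Inverted D X)

/-- The inversion number is `k`. -/
def InvEq (D : OGraph) (k : ℕ) : Prop := InvLe D k ∧ ∀ j < k, ¬ InvLe D j

/-- The arcs of the dijoin. -/
def dijoinArc {V W : Type} (r₁ : V → V → Prop) (r₂ : W → W → Prop) : V ⊕ W → V ⊕ W → Prop
  | Sum.inl a, Sum.inl b => r₁ a b
  | Sum.inr a, Sum.inr b => r₂ a b
  | Sum.inl _, Sum.inr _ => True
  | Sum.inr _, Sum.inl _ => False

/-- The dijoin: all arcs from the first graph to the second. -/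
def dijoin (D E : OGraph) : OGraph where
  V := D.V ⊕ E.V
  fin := by
    have := D.fin
    have := E.fin
    infer_instance
  arc := dijoinArc D.arc E.arc
  asymm := by
    rintro (a | a) (b | b) h h'
    · exact D.asymm a b h h'
    · exact h'
    · exact h
    · exact E.asymm a b h h'

/-- `D`, of inversion number `l`, is a universal strictly subadditive partner: the inversion
number of the dijoin of `D` and `E` is less than `l` plus the inversion number of `E`, for
every finite oriented graph `E` which is not acyclic. -/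
def Universal (D : OGraph) (l : ℕ) : Prop :=
  ∀ (E : OGraph) (k : ℕ), 1 ≤ k → InvEq E k → ∃ j, j < l + k ∧ InvLe (dijoin D E) j

/-- The directed triangle. -/
def triangle : OGraph where
  V := Fin 3
  fin := inferInstance
  arc := fun a b => b = a + 1
  asymm := by decide

open H2.Dij2 in
lemma inv_iff (D : OGraph) (k : ℕ) : InvLe D k ↔ VLe D.arc k := ile_iff D.arc k

open H2.Dij2 in
lemma tri_eq : InvEq triangle 1 := by
  refine ⟨(inv_iff _ _).2 c3_one, ?_⟩
  intro j hj h
  have : j = 0 := by omega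
  subst this
  exact c3_zero ((inv_iff _ _).1 h)

open H2.Dij2 in
/-- Universal partners have an even decycling family. -/
lemma univ_even (D : OGraph) (l : ℕ) (h : InvEq D l) (hU : Universal D l) :
    ∃ s, l = s + 1 ∧ Odd (s + 1) ∧ 3 ≤ s + 1 ∧ VEv D.arc (s + 1) := by
  obtain ⟨j, hj, hj'⟩ := hU triangle 1 le_rfl tri_eq
  have hc : VLe (dj D.arc c3) l := ((inv_iff _ _).1 hj').mono (by omega)
  obtain ⟨h1, h2⟩ := stepE D.arc c3 1 l (by norm_num)
    (fun j hj => by
      have : j = 0 := by omega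
      subst this
      exact c3_zero) (Or.inl hc)
  obtain ⟨s, rfl⟩ : ∃ s, l = s + 1 := ⟨l - 1, by omega⟩
  rcases h2 with g | g
  · exact (h.2 s (by omega) ((inv_iff _ _).2 g)).elim
  · have hn : ¬ VLe D.arc s := fun g' => h.2 s (by omega) ((inv_iff _ _).2 g')
    exact ⟨s, rfl, (even_dim g hn).1, (even_dim g hn).2, g⟩

open H2.Dij2 in
/-- The inversion number exists. -/
lemma exists_inv (D : OGraph) (n : ℕ) (h : VLe D.arc n) : ∃ l ≤ n, InvEq D l := by
  classical
  have hex : ∃ n, InvLe D n := ⟨n, (inv_iff _ _).2 h⟩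
  exact ⟨Nat.find hex, Nat.find_min' hex ((inv_iff _ _).2 h), Nat.find_spec hex,
    fun j hj => Nat.find_min hex hj⟩

/-- The graph with all arcs reversed. -/
def rv {V : Type} (r : V → V → Prop) (a b : V) : Prop := r b a

open H2.Dij2 in
lemma acy_rv {V : Type} {r : V → V → Prop} {k : ℕ} {x : V → Fin k → ZMod 2}
    (h : Acy (Arc r x)) : Acy (Arc (rv r) x) := by
  have e : ∀ a b, Arc (rv r) x a b → Arc r x b a := by
    rintro a b (⟨h1, h2⟩ | ⟨h1, h2⟩)
    · exact Or.inl ⟨h1, by rw [dotProduct_comm]; exact h2⟩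
    · exact Or.inr ⟨h1, by rw [dotProduct_comm]; exact h2⟩
  have key : ∀ a b, Relation.TransGen (Arc (rv r) x) a b → Relation.TransGen (Arc r x) b a := by
    intro a b hab
    induction hab with
    | single h1 => exact Relation.TransGen.single (e _ _ h1)
    | tail _ h1 ih => exact (Relation.TransGen.single (e _ _ h1)).trans ih
  intro v hv
  exact h v (key v v hv)

open H2.Dij2 in
lemma rle_rv {V : Type} {r : V → V → Prop} {k : ℕ} (h : RLe r k) : RLe (rv r) k := by
  rcases h with ⟨x, hx⟩ | ⟨x, hx, h0⟩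
  · exact Or.inl ⟨x, acy_rv hx⟩
  · exact Or.inr ⟨x, acy_rv hx, h0⟩

open H2.Dij2 in
/-- The step with the triangle as first graph. -/
lemma step_left {V : Type} (r : V → V → Prop) (k : ℕ) (h : RLe (dj c3 r) (k + 1)) : RLe r k := by
  have h1 : RLe (dj (rv r) (rv c3)) (k + 1) := by
    refine RLe.hom (s := rv (dj c3 r)) Sum.swap ?_ (rle_rv h)
    rintro (a | a) (b | b) hab
    · exact hab
    · trivial
    · exact hab
    · exact hab
  have hc : ¬ VLe (rv c3) 0 := by
    intro hc
    rcases rle_rv (Or.inl hc) with g | g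
    · exact c3_zero g
    · exact c3_zero (vev_one g)
  exact rle_rv (step1 k (rv r) (rv c3) hc h1)

open H2.Dij2 in
/-- From an even family one dimension less, in the relevant parity. -/
lemma rle_vle {V : Type} {r : V → V → Prop} {s : ℕ} (hs : Odd (s + 1 + 1)) (h : RLe r s) :
    VLe r s := by
  rcases h with h | h
  · exact h
  · refine vev_even ?_ h
    by_contra hc
    exact (Nat.not_even_iff_odd.2 hs) ((Nat.not_even_iff_odd.1 hc).add_odd odd_one)

/-- The numbers for a given `ε`. -/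
lemma choose_m (ε : ℝ) (hε : 0 < ε) : ∃ t k d : ℕ, t = k + d ∧
    2 * (t ^ t * 2 ^ t * 2 ^ H2.Dij2.NP t k) < 2 ^ Fintype.card (H2.Dij2.Low t) ∧
    1 / ε ≤ (k : ℝ) ∧ (t : ℝ) + 2 ≤ (1 + ε) * (k + 1) := by
  obtain ⟨n, hn⟩ := exists_nat_ge ((5 + 3 * ε) / ε)
  set m := n + 4 with hm
  have hm4 : 4 ≤ m := by omega
  have hmn : (5 + 3 * ε) / ε ≤ (m : ℝ) := by
    refine hn.trans ?_
    rw [hm]; push_cast; linarith
  obtain ⟨hd, hN⟩ := H2.Dij2.numbers m hm4
  have hsq : m * m ≤ 2 ^ m := by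
    clear_value m
    clear hd hN hmn hm hn
    induction m, hm4 using Nat.le_induction with
    | base => norm_num
    | succ q hq ih => rw [pow_succ]; nlinarith
  set t := 4 ^ m with ht
  set d := 2 ^ m * (2 * m + 3) with hdd
  have h4 : t = 2 ^ m * 2 ^ m := by
    rw [ht, ← mul_pow]; norm_num
  have hmd : m * d ≤ 3 * t := by
    calc m * d = 2 ^ m * (2 * (m * m) + 3 * m) := by rw [hdd]; ring
      _ ≤ 2 ^ m * (3 * (m * m)) := by
          refine Nat.mul_le_mul_left _ ?_
          have : 4 * m ≤ m * m := Nat.mul_le_mul_right _ hm4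
          omega
      _ ≤ 2 ^ m * (3 * 2 ^ m) := Nat.mul_le_mul_left _ (Nat.mul_le_mul_left _ hsq)
      _ = 3 * t := by rw [h4]; ring
  have hmt : 4 * m ≤ t := by
    calc 4 * m ≤ m * m := Nat.mul_le_mul_right _ hm4
      _ ≤ 2 ^ m := hsq
      _ ≤ 2 ^ m * 2 ^ m := Nat.le_mul_of_pos_left _ (by positivity)
      _ = t := h4.symm
  obtain ⟨k, hk⟩ : ∃ k, t = k + d := ⟨t - d, by omega⟩
  have hk' : t - d = k := by omega
  rw [hk'] at hN
  refine ⟨t, k, d, hk, hN, ?_, ?_⟩
  all_goals
    have hkR : (t : ℝ) = k + d := by exact_mod_cast hk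
    have hmdR : (m : ℝ) * d ≤ 3 * t := by exact_mod_cast hmd
    have hmtR : 4 * (m : ℝ) ≤ t := by exact_mod_cast hmt
    have hm4R : (4 : ℝ) ≤ m := by exact_mod_cast hm4
    have hme : 5 + 3 * ε ≤ m * ε := by
      rw [div_le_iff₀ hε] at hmn; exact hmn
  · have h1 : (m : ℝ) ≤ k := by
      have h2 : (m : ℝ) * m ≤ m * k := by nlinarith
      exact le_of_mul_le_mul_left h2 (by linarith)
    refine le_trans ?_ h1
    rw [div_le_iff₀ hε]; linarith
  · have h2 : 0 ≤ (m : ℝ) * ((1 + ε) * (k + 1) - (t + 2)) := by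
      have e1 : (m : ℝ) * ((1 + ε) * (k + 1) - (t + 2)) =
          m * ε * t - (1 + ε) * (m * d) + m * ε - m := by
        have : (k : ℝ) = t - d := by linarith
        rw [this]; ring
      rw [e1]
      nlinarith
    have h3 : 0 ≤ (1 + ε) * (k + 1) - ((t : ℝ) + 2) := by
      by_contra hc
      push Not at hc
      have : (m : ℝ) * ((1 + ε) * (k + 1) - (t + 2)) < 0 := mul_neg_of_pos_of_neg (by linarith) hc
      linarith
    linarith

open H2.Dij2 in
/-- **Strong subadditivity of the dijoin.** For every `ε > 0` there are finite oriented graphs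
`D`, `E` which are not universal partners, with inversion numbers `l, k ≥ 1 / ε`, such that the
inversion number `j` of their dijoin is at most `(1 + ε) l` and at most `(1 + ε) k`. -/
theorem result : ∀ ε : ℝ, 0 < ε → ∃ (D E : OGraph) (l k j : ℕ),
    InvEq D l ∧ InvEq E k ∧ InvEq (dijoin D E) j ∧ ¬ Universal D l ∧ ¬ Universal E k ∧
      1 / ε ≤ l ∧ 1 / ε ≤ k ∧ (j : ℝ) ≤ (1 + ε) * l ∧ (j : ℝ) ≤ (1 + ε) * k := by
  intro ε hε
  obtain ⟨t, k0, d, htk, hN, h1, h2⟩ := choose_m ε hε
  obtain ⟨g, g', hg, hg', hgg, hgt, hgt'⟩ := exists_good t k0 (by omega) hN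
  let A : OGraph := ⟨Fin t, inferInstance, TT g, TT_asymm g⟩
  let B : OGraph := ⟨Fin t, inferInstance, TT g', TT_asymm g'⟩
  let D : OGraph := dijoin triangle A
  let E : OGraph := dijoin B triangle
  have hD : VLe D.arc (1 + t) := vle_dj c3_one hgt
  have hE : VLe E.arc (t + 1) := vle_dj hgt' c3_one
  have hDE : VLe (dijoin D E).arc (1 + t + 1) := by
    have h3 : VLe (dj (dj c3 (dj (TT g) (TT g'))) c3) (1 + t + 1) :=
      vle_dj (vle_dj c3_one hgg) c3_one
    refine VLe.hom (s := dj (dj c3 (dj (TT g) (TT g'))) c3)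
      (Sum.elim (Sum.elim (fun a => Sum.inl (Sum.inl a)) (fun b => Sum.inl (Sum.inr (Sum.inl b))))
        (Sum.elim (fun c => Sum.inl (Sum.inr (Sum.inr c))) (fun e => Sum.inr e))) ?_ h3
    rintro ((a | a) | (a | a)) ((b | b) | (b | b)) hab <;>
      first
        | exact hab
        | trivial
        | exact False.elim hab
  obtain ⟨l, hl, hDl⟩ := exists_inv D _ hD
  obtain ⟨k, hk, hEk⟩ := exists_inv E _ hE
  obtain ⟨j, hj, hj'⟩ := exists_inv (dijoin D E) _ hDE
  have hlk : k0 + 1 ≤ l := by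
    by_contra hc
    have h3 : VLe D.arc k0 := ((inv_iff _ _).1 hDl.1).mono (by omega)
    exact hg (VLe.hom (s := D.arc) Sum.inr (fun a b h => h) h3)
  have hkk : k0 + 1 ≤ k := by
    by_contra hc
    have h3 : VLe E.arc k0 := ((inv_iff _ _).1 hEk.1).mono (by omega)
    exact hg' (VLe.hom (s := E.arc) Sum.inl (fun a b h => h) h3)
  refine ⟨D, E, l, k, j, hDl, hEk, hj', ?_, ?_, ?_, ?_, ?_, ?_⟩
  · intro hU
    obtain ⟨s, rfl, ho, h3, hev⟩ := univ_even D l hDl hU
    obtain ⟨s, rfl⟩ : ∃ s', s = s' + 1 := ⟨s - 1, by omega⟩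
    have h4 : VLe (TT g) s := rle_vle ho (step_left (TT g) s (Or.inr hev))
    have h5 : VLe D.arc (1 + s) := vle_dj c3_one h4
    exact hDl.2 (s + 1) (by omega) ((inv_iff _ _).2 (h5.mono (by omega)))
  · intro hU
    obtain ⟨s, rfl, ho, h3, hev⟩ := univ_even E k hEk hU
    obtain ⟨s, rfl⟩ : ∃ s', s = s' + 1 := ⟨s - 1, by omega⟩
    have h4 : VLe (TT g') s := rle_vle ho (step1 s (TT g') c3 c3_zero (Or.inr hev))
    have h5 : VLe E.arc (s + 1) := vle_dj h4 c3_one
    exact hEk.2 (s + 1) (by omega) ((inv_iff _ _).2 h5)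
  · have : ((k0 : ℕ) : ℝ) + 1 ≤ l := by exact_mod_cast hlk
    linarith
  · have : ((k0 : ℕ) : ℝ) + 1 ≤ k := by exact_mod_cast hkk
    linarith
  · have h3 : ((k0 : ℕ) : ℝ) + 1 ≤ l := by exact_mod_cast hlk
    have h4 : (j : ℝ) ≤ t + 2 := by exact_mod_cast (by omega : j ≤ t + 2)
    nlinarith
  · have h3 : ((k0 : ℕ) : ℝ) + 1 ≤ k := by exact_mod_cast hkk
    have h4 : (j : ℝ) ≤ t + 2 := by exact_mod_cast (by omega : j ≤ t + 2)
    nlinarith

end Pool.Agent.Results.MP_61c7a3_co.StrongSubadditivity
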