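import Pool.Agent.H2.Dij.Mid

set_option autoImplicit false

namespace Pool.Agent.Results.MP_61c7a3_co.UniversalPartners

/-- A finite oriented graph: `arc x y` means that there is an arc from `x` to `y`; no loops and
no directed 2-cycles. -/
structure OGraph where
  /-- the vertices -/
  V : Type
  /-- there are finitely many -/
  fin : Finite V
  /-- the arcs -/
  arc : V → V → Prop
  /-- no loops, no directed 2-cycles -/
  asymm : ∀ x y, arc x y → ¬ arc y x

/-- The arcs after inverting the sets `X 0, ..., X (k-1)`: the arc between `a` and `b` is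
reversed if the number of the sets which contain both ends is odd. -/
def Inverted (D : OGraph) {k : ℕ} (X : Fin k → Set D.V) (a b : D.V) : Prop :=
  (D.arc a b ∧ Even (Nat.card {i : Fin k // a ∈ X i ∧ b ∈ X i})) ∨
    (D.arc b a ∧ Odd (Nat.card {i : Fin k // a ∈ X i ∧ b ∈ X i}))

/-- No directed closed walk. -/
def Acyclic {V : Type} (R : V → V → Prop) : Prop := ∀ v, ¬ Relation.TransGen R v v

/-- The inversion number: the least number of inversions which make the graph acyclic. -/
noncomputable def inv (D : OGraph) : ℕ :=
  sInf {k | ∃ X : Fin k → Set D.V, Acyclic (Inverted D X)}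

/-- The arcs of the dijoin. -/
def dijoinArc {V W : Type} (r₁ : V → V → Prop) (r₂ : W → W → Prop) : V ⊕ W → V ⊕ W → Prop
  | Sum.inl a, Sum.inl b => r₁ a b
  | Sum.inr a, Sum.inr b => r₂ a b
  | Sum.inl _, Sum.inr _ => True
  | Sum.inr _, Sum.inl _ => False

/-- The dijoin: all arcs from the first graph to the second. -/
def dijoin (D E : OGraph) : OGraph where
  V := D.V ⊕ E.V
  fin := by
    have := D.fin
    have := E.fin
    infer_instance
  arc := dijoinArc D.arc E.arc
  asymm := by
    rintro (a | a) (b | b) h h'
    · exact D.asymm a b h h'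
    · exact h'
    · exact h
    · exact E.asymm a b h h'

/-- The directed triangle. -/
def triangle : OGraph where
  V := Fin 3
  fin := inferInstance
  arc := fun a b => b = a + 1
  asymm := by decide

/-- `D` is a universal strictly subadditive partner: the inversion number of the dijoin of `D`
and `E` is less than the sum of the inversion numbers, for every finite oriented graph `E` which
is not acyclic. -/
def Universal (D : OGraph) : Prop :=
  ∀ E : OGraph, 1 ≤ inv E → inv (dijoin D E) < inv D + inv E

/-- Some `k` inversions make `D` acyclic, with every vertex in an even number of the `k` sets. -/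
def EvenFamily (D : OGraph) (k : ℕ) : Prop :=
  ∃ X : Fin k → Set D.V, Acyclic (Inverted D X) ∧ ∀ v, Even (Nat.card {i : Fin k // v ∈ X i})

open H2.Dij2 in
lemma inv_spec (D : OGraph) : VLe D.arc (inv D) := by
  have := D.fin
  obtain ⟨k, hk⟩ := exists_vle D.arc D.asymm
  exact (ile_iff D.arc _).1
    (Nat.sInf_mem (s := {k | ∃ X : Fin k → Set D.V, Acyclic (Inverted D X)})
      ⟨k, (ile_iff D.arc k).2 hk⟩)

open H2.Dij2 in
lemma inv_le {D : OGraph} {k : ℕ} (h : VLe D.arc k) : inv D ≤ k :=
  Nat.sInf_le ((ile_iff D.arc k).2 h)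

open H2.Dij2 in
lemma lt_inv {D : OGraph} {k : ℕ} (h : k < inv D) : ¬ VLe D.arc k :=
  fun g => absurd (inv_le g) (by omega)

open H2.Dij2 in
lemma ev_iff (D : OGraph) (k : ℕ) : EvenFamily D k ↔ VEv D.arc k := iev_iff D.arc k

open H2.Dij2 in
lemma tri_one : inv triangle = 1 := by
  refine le_antisymm (inv_le (D := triangle) c3_one) ?_
  by_contra hc
  have h := inv_spec triangle
  rw [show inv triangle = 0 by omega] at h
  exact c3_zero h

open H2.Dij2 in
/-- The characterisation of the universal partners. -/
lemma char (D : OGraph) :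
    (Universal D → inv (dijoin D triangle) = inv D) ∧
      (inv (dijoin D triangle) = inv D → 1 ≤ inv D ∧ EvenFamily D (inv D)) ∧
      (1 ≤ inv D ∧ EvenFamily D (inv D) → Universal D) := by
  have hsub : inv D ≤ inv (dijoin D triangle) :=
    inv_le (VLe.hom (s := (dijoin D triangle).arc) Sum.inl (fun _ _ h => h)
      (inv_spec (dijoin D triangle)))
  refine ⟨?_, ?_, ?_⟩
  · intro hU
    have := hU triangle (by rw [tri_one])
    rw [tri_one] at this
    omega
  · intro h
    have h1 : VLe (dj D.arc c3) (inv D) := by
      have := inv_spec (dijoin D triangle)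
      rw [h] at this
      exact this
    obtain ⟨h2, h3⟩ := stepE D.arc c3 1 (inv D) (by norm_num)
      (fun j hj => by
        have : j = 0 := by omega
        subst this
        exact c3_zero) (Or.inl h1)
    refine ⟨h2, (ev_iff _ _).2 ?_⟩
    rcases h3 with g | g
    · exact (lt_inv (show inv D - 1 < inv D by omega) g).elim
    · rw [show inv D - 1 + 1 = inv D by omega] at g
      exact g
  · rintro ⟨hl, he⟩ E hE
    obtain ⟨l, hl'⟩ : ∃ s, inv D = s + 1 := ⟨inv D - 1, by omega⟩
    obtain ⟨k, hk⟩ : ∃ s, inv E = s + 1 := ⟨inv E - 1, by omega⟩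
    have hn : ¬ VLe D.arc l := lt_inv (by omega)
    rw [ev_iff, hl'] at he
    have hodd := (even_dim he hn).1
    have hEk := inv_spec E
    rw [hk] at hEk
    have := inv_le (D := dijoin D E) (vle_dj_even hodd he hEk)
    omega

/-- **Universal strictly subadditive partners.** A finite oriented graph `D` is a universal
strictly subadditive partner if and only if the dijoin of `D` and the directed triangle has the
same inversion number as `D`, and if and only if `D` is not acyclic and has a decycling family
of `inv D` sets with every vertex in an even number of them. Universal partners of inversion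
number `l` exist exactly for odd `l ≥ 3`. -/
theorem result :
    (∀ D : OGraph, (Universal D ↔ inv (dijoin D triangle) = inv D) ∧
      (Universal D ↔ 1 ≤ inv D ∧ EvenFamily D (inv D))) ∧
    (∀ l : ℕ, (∃ D : OGraph, inv D = l ∧ Universal D) ↔ Odd l ∧ 3 ≤ l) := by
  refine ⟨?_, ?_⟩
  · intro D
    obtain ⟨h1, h2, h3⟩ := char D
    exact ⟨⟨h1, fun g => h3 (h2 g)⟩, ⟨fun g => h2 (h1 g), h3⟩⟩
  · intro l
    constructor
    · rintro ⟨D, rfl, hU⟩
      obtain ⟨h1, h2, -⟩ := char D
      obtain ⟨hl, he⟩ := h2 (h1 hU)
      obtain ⟨l, hl'⟩ : ∃ s, inv D = s + 1 := ⟨inv D - 1, by omega⟩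
      have hn : ¬ H2.Dij2.VLe D.arc l := lt_inv (by omega)
      rw [ev_iff, hl'] at he
      rw [hl']
      exact H2.Dij2.even_dim he hn
    · rintro ⟨h1, h2⟩
      obtain ⟨s, rfl⟩ : ∃ s, l = s + 1 := ⟨l - 1, by omega⟩
      have hs : Even s := by
        by_contra hc
        exact (Nat.not_even_iff_odd.2 h1) ((Nat.not_even_iff_odd.1 hc).add_odd odd_one)
      have he := H2.Dij2.gen_even (H2.Dij2.win2 s) s
      have hn := H2.Dij2.gen_lower s hs (by omega)
      let D : OGraph := ⟨Fin (H2.Dij2.win2 s) × Fin (s + 1), inferInstance,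
        H2.Dij2.gen (H2.Dij2.win2 s) s, H2.Dij2.gen_asymm _ _⟩
      have hI : inv D = s + 1 := by
        refine le_antisymm (inv_le (D := D) he.vle) ?_
        by_contra hc
        exact hn ((inv_spec D).mono (by omega))
      exact ⟨D, hI, (char D).2.2 ⟨by omega, (ev_iff _ _).2 (by rw [hI]; exact he)⟩⟩

end Pool.Agent.Results.MP_61c7a3_co.UniversalPartners
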